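import Pool.Agent.Y8.DI.Defs
import Pool.Agent.Y500.SK.Ener

/-! The energy identity with a dissipation (job DI-ENER, for helper8). -/

open Set Filter Topology MeasureTheory Metric

set_option autoImplicit false

namespace Pool.Agent.Y954.DI

open Pool.Agent.Y5 (E3)
open Pool.Agent.Y303.SK
open Pool.Agent.Y500.SK
open Pool.Agent.Y8.DI

theorem skew_of {ι : Type} {Ω : Set E3} {e : ι → E3 → E3} {lam : ι → ℝ} (h : DissD Ω e lam) :
    SkewD Ω e (fun i => i) (fun _ => 0) where
  field := h.field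
  orth := h.orth
  compl := h.compl
  inv := fun _ => rfl
  skew := fun _ => by simp

theorem t_ENERD : S_ENERD := by
  intro Ω ν ι e lam T u hΩ hb hD hu huc hbd t ht
  have hS := skew_of hD
  set T' := (t + T) / 2 with hT'
  have hT1 : T' < T := by rw [hT']; linarith [ht.2]
  have hT2 : t < T' := by rw [hT']; linarith [ht.2]
  obtain ⟨b, hbs, hbb⟩ := hbd T' hT1
  obtain ⟨M, hM⟩ := hu.bdd T' hT1
  have hcpt : ∀ τ ∈ Ico 0 T, HasCompactSupport (u τ) := fun τ hτ =>
    cpt_of_zero hb (hu.zero τ hτ)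
  -- the reduced right-hand side
  set g : ι → ℝ → ℝ := fun i τ => -(ν * dirf (u τ) (e i)) - adv (u τ) (u τ) (e i) with hg
  set z : ι → ℝ → ℝ := fun i τ => ipr (u τ) (e i) with hz
  have hzd : ∀ i, ∀ τ ∈ Ico 0 T,
      HasDerivWithinAt (z i) (g i τ - lam i * z i τ) (Ico 0 T) τ := by
    intro i τ hτ
    refine (hu.eqn i τ hτ).congr_deriv ?_
    simp only [hz, hg]; ring
  set W : ι → ℝ → ℝ := fun i τ => z i τ ^ 2 with hW
  set W' : ι → ℝ → ℝ := fun i τ => 2 * (z i τ * g i τ) - 2 * (lam i * z i τ ^ 2) with hW'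
  have hWd : ∀ i, ∀ τ ∈ Ico 0 T, HasDerivWithinAt (W i) (W' i τ) (Ico 0 T) τ := by
    intro i τ hτ
    refine ((hzd i τ hτ).pow 2).congr_deriv ?_
    simp only [hW']
    push_cast
    ring
  -- bounds
  set V := (volume.real Ω + 1) / 2 with hV
  have hV0 : 0 ≤ V := by rw [hV]; positivity
  set M' := max M 0 with hM'
  have hM0 : 0 ≤ M' := le_max_right _ _
  have hen : ∀ i, ∫ x, ‖e i x‖ ^ 2 = 1 := by
    intro i
    have := (hS.orth i i).1 rfl
    unfold ipr at this
    simpa only [real_inner_self_eq_norm_sq] using this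
  have hdl : ∀ i, ∀ τ ∈ Ico 0 T, dirf (u τ) (e i) = -ipr (lap (u τ)) (e i) := fun i τ hτ =>
    dirf_eq (u τ) (e i) (huc τ hτ) ((hS.field i).smooth.of_le (by exact_mod_cast le_top))
      (hS.field i).cpt
  have hgb : ∀ i, ∀ τ ∈ Icc 0 T', |g i τ| ≤ |ν| * (3 * M' * V) + M' * M' * V := by
    intro i τ hτ
    have hτ' : τ ∈ Ico 0 T := ⟨hτ.1, hτ.2.trans_lt hT1⟩
    have h1 : |ipr (lap (u τ)) (e i)| ≤ 3 * M' * V :=
      ipr_bound _ _ (3 * M') hΩ hb (by positivity)
        (fun x hx => lap_le x M' ((hM τ hτ x hx).2.2.trans (le_max_left _ _)))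
        (Pool.Agent.Y500.SK.CS.zero (hS.field i)) (Pool.Agent.Y500.SK.CS.sq_int (hS.field i))
        (hen i)
    have h2 : |adv (u τ) (u τ) (e i)| ≤ M' * M' * V :=
      ipr_bound (fun x => fderiv ℝ (u τ) x (u τ x)) _ (M' * M') hΩ hb (by positivity)
        (fun x hx => by
          have h3 := hM τ hτ x hx
          calc _ ≤ ‖fderiv ℝ (u τ) x‖ * ‖u τ x‖ := ContinuousLinearMap.le_opNorm _ _
            _ ≤ M' * M' := by
                have h4 := h3.1.trans (le_max_left M 0)
                have h5 := h3.2.1.trans (le_max_left M 0)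
                gcongr)
        (Pool.Agent.Y500.SK.CS.zero (hS.field i)) (Pool.Agent.Y500.SK.CS.sq_int (hS.field i))
        (hen i)
    simp only [hg]
    rw [hdl i τ hτ']
    calc _ ≤ |-(ν * -ipr (lap (u τ)) (e i))| + |adv (u τ) (u τ) (e i)| := abs_sub _ _
      _ = |ν| * |ipr (lap (u τ)) (e i)| + |adv (u τ) (u τ) (e i)| := by
          rw [abs_neg, abs_mul, abs_neg]
      _ ≤ _ := by gcongr
  set Q := |ν| * (3 * M' * V) + M' * M' * V with hQ
  have hQ0 : 0 ≤ Q := by rw [hQ]; positivity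
  have hWb : ∀ i, ∀ τ ∈ Icc 0 T', |W' i τ| ≤ (2 * Q + 2) * b i := by
    intro i τ hτ
    have h1 : |z i τ| ≤ b i := (hbb τ hτ i).1
    have h2 : lam i * z i τ ^ 2 ≤ b i := (hbb τ hτ i).2
    have h3 := hgb i τ hτ
    have hb0 : 0 ≤ b i := (abs_nonneg _).trans h1
    have h4 : 0 ≤ lam i * z i τ ^ 2 := mul_nonneg (hD.nonneg i) (sq_nonneg _)
    have h5 : |z i τ * g i τ| ≤ b i * Q := by
      rw [abs_mul]; gcongr
    obtain ⟨h6, h7⟩ := abs_le.1 h5
    show |2 * (z i τ * g i τ) - 2 * (lam i * z i τ ^ 2)| ≤ _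
    rw [abs_le]
    constructor <;> nlinarith
  have hsum : ∀ τ ∈ Ico 0 T, HasSum (fun i => W i τ) (ipr (u τ) (u τ)) := by
    intro τ hτ
    have h1 := parseval hS (u τ) (u τ) (hu.inH τ hτ) (hu.inH τ hτ).1
    have h4 : (fun i => W i τ) = fun i => ipr (u τ) (e i) * ipr (u τ) (e i) := by
      funext i; simp only [hW, hz]; ring
    rw [h4]
    exact h1
  have key := series_deriv W W' (fun i => (2 * Q + 2) * b i) T T' t
    (hbs.mul_left _) hWd hT1 hWb ⟨ht.1, hT2⟩ (hsum t ht).summable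
  -- the dissipation
  have hLs : Summable (fun i => lam i * z i t ^ 2) :=
    Summable.of_nonneg_of_le (fun i => mul_nonneg (hD.nonneg i) (sq_nonneg _))
      (fun i => (hbb t ⟨ht.1, hT2.le⟩ i).2) hbs
  refine ⟨hLs, ?_⟩
  -- the value of the derivative
  have hval : HasSum (fun i => W' i t)
      (-(2 * (ν * dirf (u t) (u t) + ∑' i, lam i * z i t ^ 2))) := by
    have hc := hcpt t ht
    have e1 := parseval hS (u t) (lap (u t)) (hu.inH t ht) (lap_memLp (huc t ht) hc)
    have e2 := parseval hS (u t) (fun x => fderiv ℝ (u t) x (u t x)) (hu.inH t ht)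
      (adv_memLp (huc t ht) hc)
    have e3 : ipr (u t) (lap (u t)) = -dirf (u t) (u t) := by
      rw [ipr_comm, dirf_eq (u t) (u t) (huc t ht) ((huc t ht).of_le (by norm_num)) hc]; ring
    have hdv := dvg_zero ((huc t ht).of_le (by norm_num)) (hu.zero t ht) (hu.dv t ht)
    have e4 : ipr (u t) (fun x => fderiv ℝ (u t) x (u t x)) = 0 := by
      rw [ipr_comm]; exact adv_self (u t) ((huc t ht).of_le (by norm_num)) hc hdv
    rw [e3] at e1
    rw [e4] at e2
    have e5 : HasSum (fun i => z i t * g i t) (-(ν * dirf (u t) (u t))) := by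
      have h1 := (e1.mul_left ν).sub e2
      have h2 : (fun i => z i t * g i t) = fun i => ν * (ipr (u t) (e i) * ipr (lap (u t)) (e i)) -
          ipr (u t) (e i) * ipr (fun x => fderiv ℝ (u t) x (u t x)) (e i) := by
        funext i
        simp only [hg, hz]
        rw [hdl i t ht]
        show ipr (u t) (e i) * (-(ν * -ipr (lap (u t)) (e i)) -
          ipr (fun x => fderiv ℝ (u t) x (u t x)) (e i)) = _
        ring
      rw [h2]
      have h3 : -(ν * dirf (u t) (u t)) = ν * -dirf (u t) (u t) - 0 := by ring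
      rw [h3]; exact h1
    have e6 := (e5.mul_left 2).sub (hLs.hasSum.mul_left 2)
    have h5 : -(2 * (ν * dirf (u t) (u t) + ∑' i, lam i * z i t ^ 2)) =
        2 * -(ν * dirf (u t) (u t)) - 2 * ∑' i, lam i * z i t ^ 2 := by ring
    rw [h5]; exact e6
  rw [hval.tsum_eq] at key
  refine key.congr (fun τ hτ => ?_) ?_
  · exact (hsum τ hτ).tsum_eq.symm
  · exact (hsum t ht).tsum_eq.symm

end Pool.Agent.Y954.DI
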